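import Mathlib
import Pool.Agent.Work.MP_02e323_helper29.Occ

/-!
# Polynomial functions on words with values in a commutative ring

`IsPol D f` says that all `(D+1)`-fold differences of `f` with respect to adding letters at the
left end vanish.  Such functions are exactly the linear combinations of subword counts `|w|_u`,
`|u| ≤ D`.
-/

set_option autoImplicit false

open Finset

namespace Pool.Agent.Work.MP_02e323_helper33

open Pool.Agent.Work.MP_02e323_helper29 (occ occ_nil occ_cons_nil occ_cons_cons)

variable {α : Type*} {R : Type*} [CommRing R]

/-- Polynomial functions of degree at most `D` on words. -/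
def IsPol : ℕ → (List α → R) → Prop
  | 0, f => ∀ w, f w = f []
  | D + 1, f => ∀ c, IsPol D (fun w => f (c :: w) - f w)

lemma IsPol.const (D : ℕ) (a : R) : IsPol D (fun _ : List α => a) := by
  induction D generalizing a with
  | zero => intro w; rfl
  | succ D ih => intro c; simpa using ih 0

lemma IsPol.succ {D : ℕ} {f : List α → R} (h : IsPol D f) : IsPol (D + 1) f := by
  induction D generalizing f with
  | zero =>
    intro c w
    have h1 := h (c :: w)
    have h2 := h w
    have h3 := h [c]
    simp only [h1, h2, h3]
  | succ D ih => intro c; exact ih (h c)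

lemma IsPol.mono {D E : ℕ} {f : List α → R} (h : IsPol D f) (hDE : D ≤ E) : IsPol E f := by
  induction hDE with
  | refl => exact h
  | step _ ih => exact ih.succ

lemma IsPol.add {D : ℕ} {f g : List α → R} (hf : IsPol D f) (hg : IsPol D g) :
    IsPol D (fun w => f w + g w) := by
  induction D generalizing f g with
  | zero => intro w; simp only [hf w, hg w]
  | succ D ih =>
    intro c
    have h := ih (hf c) (hg c)
    have e : (fun w => f (c :: w) + g (c :: w) - (f w + g w)) =
        (fun w => f (c :: w) - f w + (g (c :: w) - g w)) := by
      funext w; ring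
    rw [e]; exact h

lemma IsPol.smul {D : ℕ} {f : List α → R} (a : R) (hf : IsPol D f) :
    IsPol D (fun w => a * f w) := by
  induction D generalizing f with
  | zero => intro w; simp only [hf w]
  | succ D ih =>
    intro c
    have h := ih (hf c)
    have e : (fun w => a * f (c :: w) - a * f w) = (fun w => a * (f (c :: w) - f w)) := by
      funext w; ring
    rw [e]; exact h

lemma IsPol.sub {D : ℕ} {f g : List α → R} (hf : IsPol D f) (hg : IsPol D g) :
    IsPol D (fun w => f w - g w) := by
  have h := hf.add (hg.smul (-1))
  have e : (fun w => f w - g w) = (fun w => f w + -1 * g w) := by funext w; ring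
  rw [e]; exact h

lemma IsPol.sum {ι : Type*} {D : ℕ} (s : Finset ι) {f : ι → List α → R}
    (h : ∀ i ∈ s, IsPol D (f i)) : IsPol D (fun w => ∑ i ∈ s, f i w) := by
  classical
  induction s using Finset.induction_on with
  | empty => simpa using IsPol.const D (0 : R)
  | insert i s hi ih =>
    have h1 := (h i (Finset.mem_insert_self _ _)).add
      (ih (fun j hj => h j (Finset.mem_insert_of_mem hj)))
    have e : (fun w => ∑ j ∈ insert i s, f j w) = (fun w => f i w + ∑ j ∈ s, f j w) := by
      funext w; rw [Finset.sum_insert hi]
    rw [e]; exact h1

lemma IsPol.mul {D E : ℕ} {f g : List α → R} (hf : IsPol D f) (hg : IsPol E g) :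
    IsPol (D + E) (fun w => f w * g w) := by
  obtain ⟨n, hn⟩ : ∃ n, D + E = n := ⟨_, rfl⟩
  induction n using Nat.strong_induction_on generalizing D E f g with
  | _ n ih =>
    rcases D with _ | D
    · have e : (fun w => f w * g w) = (fun w => f [] * g w) := by
        funext w; rw [hf w]
      rw [e]
      exact (hg.smul (f [])).mono (by omega)
    rcases E with _ | E
    · have e : (fun w => f w * g w) = (fun w => g [] * f w) := by
        funext w; rw [hg w, mul_comm]
      rw [e]
      exact (hf.smul (g [])).mono (by omega)
    · have key : IsPol (D + 1 + E + 1) (fun w => f w * g w) := by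
        intro c
        have h1 : IsPol (D + (E + 1)) (fun w => (f (c :: w) - f w) * g w) :=
          ih (D + (E + 1)) (by omega) (hf c) hg rfl
        have h2 : IsPol ((D + 1) + E) (fun w => f w * (g (c :: w) - g w)) :=
          ih ((D + 1) + E) (by omega) hf (hg c) rfl
        have h3 : IsPol (D + E) (fun w => (f (c :: w) - f w) * (g (c :: w) - g w)) :=
          ih (D + E) (by omega) (hf c) (hg c) rfl
        have h4 := ((h1.mono (show D + (E + 1) ≤ D + 1 + E by omega)).add h2).add
          (h3.mono (show D + E ≤ D + 1 + E by omega))
        have e : (fun w => f (c :: w) * g (c :: w) - f w * g w) =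
            (fun w => (f (c :: w) - f w) * g w + f w * (g (c :: w) - g w) +
              (f (c :: w) - f w) * (g (c :: w) - g w)) := by
          funext w; ring
        rw [e]; exact h4
      exact key.mono (by omega)

lemma IsPol.diffRight {D : ℕ} {f : List α → R} (hf : IsPol (D + 1) f) (g : List α) :
    IsPol D (fun u => f (u ++ g) - f u) := by
  induction D generalizing f with
  | zero =>
    intro w
    have key : ∀ w : List α, f (w ++ g) - f w = f g - f [] := by
      intro w
      induction w with
      | nil => simp
      | cons c w ih =>
        have h1 := hf c (w ++ g)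
        have h2 := hf c w
        simp only at h1 h2
        have h3 : f (c :: w ++ g) = f (c :: (w ++ g)) := rfl
        rw [h3]
        linear_combination h1 - h2 + ih
    simp only [key]
  | succ D ih =>
    intro c
    have h := ih (hf c)
    have e : (fun w => f (c :: w ++ g) - f (c :: w) - (f (w ++ g) - f w)) =
        (fun u => f (c :: (u ++ g)) - f (u ++ g) - (f (c :: u) - f u)) := by
      funext w
      have h3 : f (c :: w ++ g) = f (c :: (w ++ g)) := rfl
      rw [h3]; ring
    rw [e]; exact h

/-- Division by a right factor. -/
lemma IsPol.div {D : ℕ} {f : List α → R} (hf : IsPol D f) (g : List α) :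
    ∃ φ, IsPol D φ ∧ ∀ u, φ (u ++ g) = f u := by
  induction D generalizing f with
  | zero => exact ⟨f, hf, fun u => by rw [hf (u ++ g), hf u]⟩
  | succ D ih =>
    obtain ⟨ψ, hψ, h⟩ := ih (hf.diffRight g)
    exact ⟨fun u => f u - ψ u, hf.sub hψ.succ, fun u => by simp only [h]; ring⟩

/-- Sum of `f` over the tails preceded by the letter `c`. -/
noncomputable def J (c : α) (f : List α → R) : List α → R
  | [] => 0
  | d :: w => J c f w + (open Classical in if d = c then f w else 0)

/-- Sum of `f` over all proper tails. -/
def S (f : List α → R) : List α → R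
  | [] => 0
  | _ :: w => S f w + f w

lemma J_nil (c : α) (f : List α → R) : J c f [] = 0 := rfl

open Classical in
lemma J_cons (c d : α) (f : List α → R) (w : List α) :
    J c f (d :: w) = J c f w + if d = c then f w else 0 := rfl

lemma isPol_S {D : ℕ} {f : List α → R} (hf : IsPol D f) : IsPol (D + 1) (S f) := by
  intro d
  have e : (fun w => S f (d :: w) - S f w) = f := by
    funext w; simp only [S]; ring
  rw [e]; exact hf

lemma isPol_J {D : ℕ} {f : List α → R} (hf : IsPol D f) (c : α) : IsPol (D + 1) (J c f) := by
  classical
  intro d
  by_cases h : d = c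
  · have e : (fun w => J c f (d :: w) -
        J c f w) = f := by
      funext w; rw [J_cons, if_pos h]; ring
    rw [e]; exact hf
  · have e : (fun w => J c f (d :: w) -
        J c f w) = (fun _ => 0) := by
      funext w; rw [J_cons, if_neg h]; ring
    rw [e]; exact IsPol.const D 0

lemma S_ofFn (f : List α → R) {n : ℕ} (v : Fin n → α) :
    S f (List.ofFn v) = ∑ i : Fin n, f ((List.ofFn v).drop (i + 1)) := by
  induction n with
  | zero => simp [S]
  | succ n ih =>
    rw [List.ofFn_succ, S, ih, Fin.sum_univ_succ, add_comm]
    simp

open Classical in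
lemma J_ofFn (c : α) (f : List α → R) {n : ℕ} (v : Fin n → α) :
    J c f (List.ofFn v) = ∑ i : Fin n, if v i = c then f ((List.ofFn v).drop (i + 1)) else 0 := by
  induction n with
  | zero => simp [J]
  | succ n ih =>
    rw [List.ofFn_succ, J_cons, ih, Fin.sum_univ_succ, add_comm]
    simp

/-! ### Newton expansion -/

/-- span of the subword counts -/
def Sp (R : Type*) [CommRing R] (D : ℕ) : Submodule R (List α → R) :=
  Submodule.span R {h | ∃ u : List α, u.length ≤ D ∧ h = fun w => (occ u w : R)}

lemma J_occ (c : α) (u w : List α) :
    J c (fun w => (occ u w : R)) w = (occ (c :: u) w : R) := by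
  classical
  induction w with
  | nil => rw [J_nil, occ_cons_nil]; simp
  | cons d w ih =>
    rw [J_cons, ih, occ_cons_cons]
    by_cases h : d = c
    · subst h; simp
    · rw [if_neg h, if_neg (fun e => h e.symm)]; simp

lemma J_add (c : α) (f g : List α → R) : J c (f + g) = J c f + J c g := by
  classical
  funext w
  induction w with
  | nil => simp [J_nil]
  | cons d w ih =>
    simp only [Pi.add_apply] at ih ⊢
    rw [J_cons, J_cons, J_cons, ih]
    split_ifs <;> simp <;> ring

lemma J_smul (c : α) (a : R) (f : List α → R) : J c (a • f) = a • J c f := by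
  classical
  funext w
  induction w with
  | nil => simp [J_nil]
  | cons d w ih =>
    simp only [Pi.smul_apply, smul_eq_mul] at ih ⊢
    rw [J_cons, J_cons, ih]
    split_ifs <;> simp <;> ring

lemma J_mem_Sp {D : ℕ} (c : α) {f : List α → R} (hf : f ∈ Sp R D) : J c f ∈ Sp R (D + 1) := by
  unfold Sp at hf
  induction hf using Submodule.span_induction with
  | mem x hx =>
    obtain ⟨u, hu, rfl⟩ := hx
    apply Submodule.subset_span
    refine ⟨c :: u, by simpa using hu, ?_⟩
    funext w
    exact J_occ c u w
  | zero =>
    have : J c (0 : List α → R) = 0 := by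
      have := J_smul c 0 (0 : List α → R)
      simpa using this
    rw [this]; exact Submodule.zero_mem _
  | add x y _ _ hx hy => rw [J_add]; exact Submodule.add_mem _ hx hy
  | smul a x _ hx => rw [J_smul]; exact Submodule.smul_mem _ _ hx

lemma IsPol.mem_Sp [Fintype α] {D : ℕ} {f : List α → R} (hf : IsPol D f) : f ∈ Sp R D := by
  classical
  induction D generalizing f with
  | zero =>
    have e : f = f [] • (fun w => (occ ([] : List α) w : R)) := by
      funext w
      simp [occ_nil, hf w]
    rw [e]
    exact Submodule.smul_mem _ _ (Submodule.subset_span ⟨[], by simp, rfl⟩)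
  | succ D ih =>
    have e : f = f [] • (fun w => (occ ([] : List α) w : R)) +
        ∑ c : α, J c (fun w => f (c :: w) - f w) := by
      funext w
      simp only [Pi.add_apply, Pi.smul_apply, smul_eq_mul, occ_nil, Nat.cast_one, mul_one,
        Finset.sum_apply]
      induction w with
      | nil => simp [J_nil]
      | cons d w ih2 =>
        have h1 : ∑ c : α, J c (fun w => f (c :: w) - f w) (d :: w) =
            ∑ c : α, J c (fun w => f (c :: w) - f w) w + (f (d :: w) - f w) := by
          rw [show (f (d :: w) - f w) = ∑ c : α, (if d = c then (f (c :: w) - f w) else 0) by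
            rw [Finset.sum_ite_eq]; simp]
          rw [← Finset.sum_add_distrib]
          apply Finset.sum_congr rfl
          intro c _
          rw [J_cons]
        rw [h1, ← add_assoc, ← ih2]
        ring
    rw [e]
    refine Submodule.add_mem _ ?_ ?_
    · exact Submodule.smul_mem _ _ (Submodule.subset_span ⟨[], by simp, rfl⟩)
    · exact Submodule.sum_mem _ (fun c _ => J_mem_Sp c (ih (hf c)))

lemma pol_eq_of_occ [Fintype α] {t : ℕ} {w w' : List α}
    (h : ∀ u : List α, u.length ≤ t → (occ u w : R) = occ u w') (f : List α → R)
    (hf : IsPol t f) : f w = f w' := by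
  have h1 : ∀ g ∈ (Sp R t : Submodule R (List α → R)), g w = g w' := by
    intro g hg
    unfold Sp at hg
    induction hg using Submodule.span_induction with
    | mem x hx =>
      obtain ⟨u, hu, rfl⟩ := hx
      exact h u hu
    | zero => rfl
    | add x y _ _ hx hy => simp only [Pi.add_apply, hx, hy]
    | smul a x _ hx => simp only [Pi.smul_apply, hx]
  exact h1 f hf.mem_Sp

lemma isPol_occ (u : List α) : IsPol u.length (fun w => (occ u w : R)) := by
  induction u with
  | nil => intro w; simp [occ_nil]
  | cons c u ih =>
    have := isPol_J ih c
    have e : (J c fun w => (occ u w : R)) = fun w => (occ (c :: u) w : R) := by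
      funext w; exact J_occ c u w
    rw [e] at this
    exact this

lemma occ_short (x : List α) : ∀ y : List α, x.length < y.length → occ y x = 0 := by
  classical
  induction x with
  | nil =>
    intro y h
    rcases y with _ | ⟨c, y⟩
    · simp at h
    · exact occ_cons_nil c y
  | cons d x ih =>
    intro y h
    rcases y with _ | ⟨c, y⟩
    · simp at h
    · simp only [List.length_cons] at h
      rw [occ_cons_cons, ih (c :: y) (by simp; omega), ih y (by omega)]
      simp

open Classical in
lemma occ_same (x : List α) : ∀ y : List α, x.length = y.length →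
    occ y x = if x = y then 1 else 0 := by
  induction x with
  | nil =>
    intro y h
    rcases y with _ | ⟨c, y⟩
    · simp [occ_nil]
    · simp at h
  | cons d x ih =>
    intro y h
    rcases y with _ | ⟨c, y⟩
    · simp at h
    · simp only [List.length_cons] at h
      rw [occ_cons_cons, occ_short x (c :: y) (by simp; omega), ih y (by omega)]
      by_cases h1 : c = d
      · subst h1; simp
      · rw [if_neg h1, if_neg (fun e => h1 (List.cons.inj e).1.symm)]

end Pool.Agent.Work.MP_02e323_helper33
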