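import Mathlib
import Pool.Agent.Work.MP_02e323_helper33.Pol

/-!
# Words whose tails are independent are determined, and most extensions are independent
-/

set_option autoImplicit false

open Finset

namespace Pool.Agent.Work.MP_02e323_helper33

open Pool.Agent.Work.MP_02e323_helper29 (occ occ_nil occ_cons_nil occ_cons_cons)

variable {α : Type*} {F : Type*} [Field F]

/-- The evaluation at `T` is independent of the evaluations at the proper suffixes of `T` on
polynomial functions of degree `D`. -/
def Ind (F : Type*) [Field F] (D : ℕ) (T : List α) : Prop :=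
  ∃ ψ : List α → F, IsPol D ψ ∧ ψ T = 1 ∧ ∀ i, i < T.length → ψ (T.drop (i + 1)) = 0

lemma ind_short {D : ℕ} {T : List α} (h : T.length ≤ D) : Ind F D T := by
  classical
  refine ⟨fun w => (occ T w : F), (isPol_occ T).mono h, ?_, fun i hi => ?_⟩
  · simp only [occ_same T T rfl, if_true, Nat.cast_one]
  · have : occ T (T.drop (i + 1)) = 0 := occ_short _ _ (by rw [List.length_drop]; omega)
    simp only [this, Nat.cast_zero]

/-- Leading term lemma: at most `|T|` of the words `y` of length `D` have `y ++ T` dependent on its
proper suffixes. -/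
lemma bad_card {D : ℕ} (T : List α) (B : Finset (List α))
    (hB : ∀ y ∈ B, y.length = D ∧ ¬ Ind F D (y ++ T)) : B.card ≤ T.length := by
  classical
  by_contra hcon
  push Not at hcon
  have hG : ∀ y : List α, ∃ φ : List α → F, IsPol y.length φ ∧ ∀ x, φ (x ++ T) = (occ y x : F) :=
    fun y => (isPol_occ y).div T
  choose G hG1 hG2 using hG
  set Mx : Matrix (Fin T.length) B F := fun i y => G y (T.drop (i + 1)) with hMx
  have hker : LinearMap.ker Mx.mulVecLin ≠ ⊥ := by
    apply LinearMap.ker_ne_bot_of_finrank_lt
    simpa using hcon
  obtain ⟨d, hd, hd0⟩ := (Submodule.ne_bot_iff _).mp hker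
  rw [LinearMap.mem_ker, Matrix.mulVecLin_apply] at hd
  obtain ⟨y0, hy0⟩ : ∃ y, d y ≠ 0 := by
    by_contra hc
    push Not at hc
    exact hd0 (funext hc)
  apply (hB y0 y0.2).2
  refine ⟨fun w => (d y0)⁻¹ * ∑ y : B, d y * G y w, ?_, ?_, fun i hi => ?_⟩
  · apply IsPol.smul
    apply IsPol.sum
    intro y _
    apply IsPol.smul
    have := hG1 y
    rw [(hB y y.2).1] at this
    exact this
  · have h1 : ∀ y : B, d y * G y ((y0 : List α) ++ T) = if y0 = y then d y else 0 := by
      intro y
      rw [hG2, occ_same _ _ (by rw [(hB y y.2).1, (hB y0 y0.2).1])]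
      by_cases h : y0 = y
      · subst h; simp
      · have : (y0 : List α) ≠ y := fun e => h (Subtype.ext e)
        rw [if_neg h, if_neg this]; simp
    simp only [h1, Finset.sum_ite_eq, Finset.mem_univ, if_true]
    exact inv_mul_cancel₀ hy0
  · have hl0 := (hB y0 y0.2).1
    simp only [mul_eq_zero]
    right
    rw [List.length_append, hl0] at hi
    by_cases hiD : i + 1 ≤ D
    · apply Finset.sum_eq_zero
      intro y _
      rw [List.drop_append_of_le_length (by omega), hG2, occ_short]
      · simp
      · rw [List.length_drop, hl0, (hB y y.2).1]; omega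
    · have h2 : ((y0 : List α) ++ T).drop (i + 1) = T.drop ((i - D) + 1) := by
        rw [List.drop_append, List.drop_eq_nil_of_le (by omega), List.nil_append, hl0]
        congr 1
        omega
      rw [h2]
      have h3 := congrFun hd ⟨i - D, by omega⟩
      simp only [Matrix.mulVec, dotProduct, hMx, Pi.zero_apply] at h3
      rw [← h3]
      exact Finset.sum_congr rfl (fun y _ => mul_comm _ _)

/-- A word all of whose proper tails are independent is determined by the polynomial functions of
degree `2D+1`. -/
lemma det_of_ind {n D : ℕ} (v v' : Fin n → α)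
    (hv : ∀ i : Fin n, Ind F D ((List.ofFn v).drop (i + 1)))
    (hs : ∀ f : List α → F, IsPol (2 * D + 1) f → f (List.ofFn v) = f (List.ofFn v')) :
    v' = v := by
  classical
  choose ψ hψ1 hψ2 hψ3 using hv
  set A : Matrix (Fin n) (Fin n) F := fun i j => ψ i ((List.ofFn v).drop (j + 1)) with hA
  set A' : Matrix (Fin n) (Fin n) F := fun i j => ψ i ((List.ofFn v').drop (j + 1)) with hA'
  have hAdiag : ∀ i, A i i = 1 := fun i => hψ2 i
  have hAlow : ∀ i j, i < j → A i j = 0 := by
    intro i j hij
    have h1 : (List.ofFn v).drop ((j : ℕ) + 1) =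
        ((List.ofFn v).drop ((i : ℕ) + 1)).drop (((j : ℕ) - i - 1) + 1) := by
      rw [List.drop_drop]
      congr 1
      have : (i : ℕ) < j := hij
      omega
    simp only [hA]
    rw [h1]
    apply hψ3
    rw [List.length_drop, List.length_ofFn]
    have h2 : (i : ℕ) < j := hij
    have h3 := j.2
    omega
  have hdet : A.det = 1 := by
    have h1 : A.BlockTriangular OrderDual.toDual := by
      intro i j hij
      exact hAlow i j hij
    rw [Matrix.det_of_lowerTriangular A h1]
    simp [hAdiag]
  have hprod : ∀ f g : List α → F, IsPol D f → IsPol D g →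
      ∑ j : Fin n, f ((List.ofFn v).drop (j + 1)) * g ((List.ofFn v).drop (j + 1)) =
      ∑ j : Fin n, f ((List.ofFn v').drop (j + 1)) * g ((List.ofFn v').drop (j + 1)) := by
    intro f g hf hg
    have h1 := isPol_S (hf.mul hg)
    rw [← two_mul] at h1
    have h2 := hs _ h1
    rw [S_ofFn, S_ofFn] at h2
    exact h2
  have hAA : A * A.transpose = A' * A'.transpose := by
    ext i j
    simp only [Matrix.mul_apply, Matrix.transpose_apply, hA, hA']
    exact hprod _ _ (hψ1 i) (hψ1 j)
  have hdet' : A'.det * A'.det = 1 := by
    have := congrArg Matrix.det hAA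
    rw [Matrix.det_mul, Matrix.det_mul, Matrix.det_transpose, Matrix.det_transpose, hdet] at this
    rw [← this]; ring
  have hinj : ∀ x : Fin n → F, A'.mulVec x = 0 → x = 0 := by
    intro x hx
    have hu : A'.det ≠ 0 := by
      intro h0
      rw [h0] at hdet'
      simp at hdet'
    exact Matrix.eq_zero_of_mulVec_eq_zero hu hx
  have hAu : IsUnit A.det := by rw [hdet]; exact isUnit_one
  -- suffixes agree
  have key : ∀ k, k ≤ n → (List.ofFn v).drop (n - k) = (List.ofFn v').drop (n - k) := by
    intro k
    induction k with
    | zero =>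
      intro _
      rw [List.drop_eq_nil_of_le (by simp), List.drop_eq_nil_of_le (by simp)]
    | succ k ih =>
      intro hk
      have ih' := ih (by omega)
      obtain ⟨e, he⟩ : ∃ e : Fin n, (e : ℕ) + 1 = n - k := ⟨⟨n - k - 1, by omega⟩, by simp; omega⟩
      rw [← he] at ih'
      have he2 : n - (k + 1) = (e : ℕ) := by omega
      rw [he2]
      -- the polynomial function which is the indicator of the tail number e
      obtain ⟨a, ha⟩ : ∃ a : Fin n → F, Matrix.vecMul a A = Pi.single e 1 := by
        refine ⟨Matrix.vecMul (Pi.single e 1) A⁻¹, ?_⟩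
        rw [Matrix.vecMul_vecMul, Matrix.nonsing_inv_mul _ hAu, Matrix.vecMul_one]
      obtain ⟨φ, hφ⟩ : ∃ φ : List α → F, φ = fun w => ∑ i, a i * ψ i w := ⟨_, rfl⟩
      have hφ1 : IsPol D φ := by
        rw [hφ]
        exact IsPol.sum _ (fun i _ => (hψ1 i).smul _)
      have hφ2 : ∀ j : Fin n, φ ((List.ofFn v).drop (j + 1)) = if j = e then 1 else 0 := by
        intro j
        have h1 := congrFun ha j
        simp only [Matrix.vecMul, dotProduct, hA] at h1
        rw [hφ]
        simp only
        rw [h1, Pi.single_apply]
      have hφ3 : ∀ j : Fin n, φ ((List.ofFn v').drop (j + 1)) = if j = e then 1 else 0 := by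
        have h1 : A'.mulVec (fun j => φ ((List.ofFn v').drop (j + 1)) - if j = e then 1 else 0) =
            0 := by
          funext i
          simp only [Matrix.mulVec, dotProduct, hA', Pi.zero_apply, mul_sub,
            Finset.sum_sub_distrib, mul_ite, mul_one, mul_zero, Finset.sum_ite_eq',
            Finset.mem_univ, if_true]
          rw [← hprod _ _ (hψ1 i) hφ1]
          simp only [hφ2, mul_ite, mul_one, mul_zero, Finset.sum_ite_eq', Finset.mem_univ, if_true]
          rw [ih', sub_self]
        intro j
        have h2 := congrFun (hinj _ h1) j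
        simp only [Pi.zero_apply] at h2
        exact sub_eq_zero.mp h2
      have hlet : v' e = v e := by
        have h1 := hs _ ((isPol_J hφ1 (v e)).mono (show D + 1 ≤ 2 * D + 1 by omega))
        rw [J_ofFn, J_ofFn] at h1
        have h2 : (∑ i : Fin n, if v i = v e then φ ((List.ofFn v).drop (i + 1)) else 0) = 1 := by
          rw [Finset.sum_eq_single e]
          · rw [if_pos rfl, hφ2, if_pos rfl]
          · intro b _ hb
            rw [hφ2, if_neg hb]
            simp
          · intro h; exact absurd (Finset.mem_univ _) h
        have h3 : (∑ i : Fin n, if v' i = v e then φ ((List.ofFn v').drop (i + 1)) else 0) =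
            if v' e = v e then 1 else 0 := by
          rw [Finset.sum_eq_single e]
          · rw [hφ3, if_pos rfl]
          · intro b _ hb
            rw [hφ3, if_neg hb]
            simp
          · intro h; exact absurd (Finset.mem_univ _) h
        rw [h2, h3] at h1
        by_contra hc
        rw [if_neg hc] at h1
        exact one_ne_zero h1
      rw [List.drop_eq_getElem_cons (by simp : (e : ℕ) < (List.ofFn v).length),
        List.drop_eq_getElem_cons (by simp : (e : ℕ) < (List.ofFn v').length), ih']
      simp [hlet]
  have h := key n le_rfl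
  simp only [Nat.sub_self, List.drop_zero] at h
  exact (List.ofFn_injective h).symm

end Pool.Agent.Work.MP_02e323_helper33
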