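import Mathlib
import Pool.Agent.Work.MP_02e323_helper29.Main
import Pool.Agent.Work.MP_02e323_helper33.Core

/-!
# Random words have independent tails
-/

set_option autoImplicit false

open Finset

namespace Pool.Agent.Work.MP_02e323_helper33

open Pool.Agent.Work.MP_02e323_helper29 (occ words mem_words)

variable {α : Type*} {F : Type*} [Field F] [Fintype α]

open Classical in
/-- total mass of the words with property `E` -/
noncomputable def mass {n : ℕ} (p : (Fin n → α) → ℝ) (E : List α → Prop) : ℝ :=
  ∑ w : Fin n → α, if E (List.ofFn w) then p w else 0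

lemma mass_nonneg {n : ℕ} {p : (Fin n → α) → ℝ} (hp : ∀ w, 0 ≤ p w) (E : List α → Prop) :
    0 ≤ mass p E :=
  Finset.sum_nonneg (fun w _ => by split_ifs <;> [exact hp w; exact le_rfl])

lemma mass_mono {n : ℕ} {p : (Fin n → α) → ℝ} (hp : ∀ w, 0 ≤ p w) {E E' : List α → Prop}
    (h : ∀ w : Fin n → α, E (List.ofFn w) → E' (List.ofFn w)) : mass p E ≤ mass p E' := by
  classical
  refine Finset.sum_le_sum (fun w _ => ?_)
  by_cases h1 : E (List.ofFn w)
  · rw [if_pos h1, if_pos (h w h1)]
  · rw [if_neg h1]
    split_ifs
    · exact hp w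
    · exact le_rfl

lemma sum_mass_suffix {n : ℕ} {p : (Fin n → α) → ℝ} {k : ℕ} (hk : k ≤ n) :
    ∑ T ∈ words (α := α) k, mass p (fun w => T <:+ w) = ∑ w, p w := by
  classical
  simp only [mass]
  rw [Finset.sum_comm]
  refine Finset.sum_congr rfl (fun w _ => ?_)
  rw [Finset.sum_eq_single ((List.ofFn w).drop (n - k))]
  · rw [if_pos (List.drop_suffix _ _)]
  · intro T hT hne
    rw [if_neg]
    intro hsuf
    apply hne
    rw [mem_words] at hT
    have h1 := List.suffix_iff_eq_drop.mp hsuf
    rw [h1, hT]
    simp
  · intro h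
    exfalso
    apply h
    rw [mem_words, List.length_drop, List.length_ofFn]
    omega

/-- Main estimate. -/
lemma main_mass {n D : ℕ} (p : (Fin n → α) → ℝ) (hp : ∀ w, 0 ≤ p w) (hp1 : ∑ w, p w = 1) (ε : ℝ)
    (hε0 : 0 ≤ ε)
    (hε : ∀ y T : List α, y.length = D → D + T.length < n →
      mass p (fun w => y ++ T <:+ w) ≤ ε * mass p (fun w => T <:+ w)) :
    mass p (fun w => ∃ i < n, ¬ Ind F D (w.drop (i + 1))) ≤ (n - D).choose 2 * ε := by
  classical
  set Bad : List α → Finset (List α) := fun T => (words D).filter (fun y => ¬ Ind F D (y ++ T))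
    with hBad
  have h1 : ∀ w : Fin n → α,
      (if (∃ i < n, ¬ Ind F D ((List.ofFn w).drop (i + 1))) then p w else 0) ≤
      ∑ k ∈ range (n - D), ∑ T ∈ words (α := α) k, ∑ y ∈ Bad T,
        (if (y ++ T <:+ List.ofFn w) then p w else 0) := by
    intro w
    have hnn : ∀ y T : List α, 0 ≤ (if (y ++ T <:+ List.ofFn w) then p w else 0) := by
      intro y T
      split_ifs
      · exact hp w
      · exact le_rfl
    by_cases hex : ∃ i < n, ¬ Ind F D ((List.ofFn w).drop (i + 1))
    · rw [if_pos hex]
      obtain ⟨i, hi, hind⟩ := hex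
      obtain ⟨L, hL⟩ : ∃ L, L = (List.ofFn w).drop (i + 1) := ⟨_, rfl⟩
      rw [← hL] at hind
      have hlen : L.length = n - (i + 1) := by rw [hL]; simp
      have hlD : D < L.length := by
        by_contra hc
        exact hind (ind_short (by omega))
      have hkey : p w = (if (L.take D ++ L.drop D <:+ List.ofFn w) then p w else 0) := by
        rw [if_pos]
        rw [List.take_append_drop, hL]
        exact List.drop_suffix _ _
      calc p w = (if (L.take D ++ L.drop D <:+ List.ofFn w) then p w else 0) := hkey
        _ ≤ ∑ y ∈ Bad (L.drop D), (if (y ++ L.drop D <:+ List.ofFn w) then p w else 0) := by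
            refine Finset.single_le_sum
              (f := fun y => (if (y ++ L.drop D <:+ List.ofFn w) then p w else 0))
              (fun y _ => hnn y _) ?_
            simp only [hBad, Finset.mem_filter, mem_words, List.length_take,
              List.take_append_drop]
            exact ⟨by omega, hind⟩
        _ ≤ ∑ T ∈ words (α := α) (n - (i + 1) - D), ∑ y ∈ Bad T,
              (if (y ++ T <:+ List.ofFn w) then p w else 0) := by
            refine Finset.single_le_sum
              (f := fun T => ∑ y ∈ Bad T, (if (y ++ T <:+ List.ofFn w) then p w else 0))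
              (fun T _ => Finset.sum_nonneg (fun y _ => hnn y _)) ?_
            rw [mem_words, List.length_drop, hlen]
        _ ≤ _ := by
            refine Finset.single_le_sum
              (f := fun k => ∑ T ∈ words (α := α) k, ∑ y ∈ Bad T,
                (if (y ++ T <:+ List.ofFn w) then p w else 0))
              (fun k _ => Finset.sum_nonneg (fun T _ => Finset.sum_nonneg (fun y _ => hnn y _))) ?_
            rw [Finset.mem_range]
            omega
    · rw [if_neg hex]
      exact Finset.sum_nonneg (fun k _ => Finset.sum_nonneg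
        (fun T _ => Finset.sum_nonneg (fun y _ => hnn y _)))
  have h2 : mass p (fun w => ∃ i < n, ¬ Ind F D (w.drop (i + 1))) ≤
      ∑ k ∈ range (n - D), ∑ T ∈ words (α := α) k, ∑ y ∈ Bad T,
        mass p (fun w => y ++ T <:+ w) := by
    have h1' : mass p (fun w => ∃ i < n, ¬ Ind F D (w.drop (i + 1))) ≤
        ∑ w : Fin n → α, ∑ k ∈ range (n - D), ∑ T ∈ words (α := α) k, ∑ y ∈ Bad T,
        (if (y ++ T <:+ List.ofFn w) then p w else 0) := by
      unfold mass
      refine Finset.sum_le_sum (fun w _ => ?_)
      refine le_trans (le_of_eq ?_) (h1 w)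
      congr
    refine h1'.trans (le_of_eq ?_)
    rw [Finset.sum_comm]
    refine Finset.sum_congr rfl (fun k _ => ?_)
    rw [Finset.sum_comm]
    refine Finset.sum_congr rfl (fun T _ => ?_)
    rw [Finset.sum_comm]
    refine Finset.sum_congr rfl (fun y _ => ?_)
    unfold mass
    refine Finset.sum_congr rfl (fun w _ => ?_)
    congr
  refine h2.trans ?_
  have h3 : ∀ k ∈ range (n - D), ∑ T ∈ words (α := α) k, ∑ y ∈ Bad T,
        mass p (fun w => y ++ T <:+ w) ≤ (k : ℝ) * ε := by
    intro k hk
    rw [Finset.mem_range] at hk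
    have h4 : ∀ T ∈ words (α := α) k, ∑ y ∈ Bad T, mass p (fun w => y ++ T <:+ w) ≤
        (k : ℝ) * (ε * mass p (fun w => T <:+ w)) := by
      intro T hT
      rw [mem_words] at hT
      have hcard : (Bad T).card ≤ k := by
        rw [← hT]
        apply bad_card (F := F) (D := D)
        intro y hy
        simp only [hBad, Finset.mem_filter, mem_words] at hy
        exact hy
      calc ∑ y ∈ Bad T, mass p (fun w => y ++ T <:+ w)
          ≤ ∑ _y ∈ Bad T, ε * mass p (fun w => T <:+ w) := by
            refine Finset.sum_le_sum (fun y hy => ?_)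
            simp only [hBad, Finset.mem_filter, mem_words] at hy
            exact hε y T hy.1 (by omega)
        _ = ((Bad T).card : ℝ) * (ε * mass p (fun w => T <:+ w)) := by
            rw [Finset.sum_const, nsmul_eq_mul]
        _ ≤ (k : ℝ) * (ε * mass p (fun w => T <:+ w)) := by
            have : ((Bad T).card : ℝ) ≤ k := by exact_mod_cast hcard
            exact mul_le_mul_of_nonneg_right this (mul_nonneg hε0 (mass_nonneg hp _))
    refine (Finset.sum_le_sum h4).trans (le_of_eq ?_)
    rw [← Finset.mul_sum, ← Finset.mul_sum, sum_mass_suffix (by omega), hp1, mul_one]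
  refine (Finset.sum_le_sum h3).trans (le_of_eq ?_)
  rw [← Finset.sum_mul, Nat.choose_two_right]
  congr 1
  rw [← Finset.sum_range_id]
  push_cast
  rfl

end Pool.Agent.Work.MP_02e323_helper33
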