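import Mathlib
import Pool.Agent.Work.MP_02e323_helper33.Prob

/-!
# Determined words; words with free letters at the multiples of `r`
-/

set_option autoImplicit false

open Finset

namespace Pool.Agent.Work.MP_02e323_helper33

open Pool.Agent.Work.MP_02e323_helper29 (occ words mem_words)

variable {α : Type*} [Fintype α]

/-- `w` is the only word of its length whose subword counts for subwords of length at most `t` are
congruent to those of `w` modulo `M`. -/
def Determined {α : Type*} (M t : ℕ) (w : List α) : Prop :=
  ∀ w' : List α, w'.length = w.length →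
    (∀ u : List α, u.length ≤ t → occ u w' ≡ occ u w [MOD M]) → w' = w

lemma determined_of_ind {M t n D p : ℕ} [Fact p.Prime] (hp : p ∣ M) (hD : 2 * D + 1 ≤ t)
    (v : Fin n → α) (h : ∀ i < n, Ind (ZMod p) D ((List.ofFn v).drop (i + 1))) :
    Determined M t (List.ofFn v) := by
  intro w' hl hc
  rw [List.length_ofFn] at hl
  subst hl
  have h1 : w'.get = v := by
    apply det_of_ind (F := ZMod p) (D := D) v w'.get (fun i => h i i.2)
    intro f hf
    rw [List.ofFn_get]
    apply pol_eq_of_occ (R := ZMod p) (t := t) _ f (hf.mono hD)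
    intro u hu
    exact ((ZMod.natCast_eq_natCast_iff _ _ p).mpr ((hc u hu).of_dvd hp)).symm
  rw [← h1, List.ofFn_get]

/-- General measures. -/
lemma mass_not_determined {M t n D : ℕ} (hM : M ≠ 1) (hD : 2 * D + 1 ≤ t)
    (p : (Fin n → α) → ℝ) (hp : ∀ w, 0 ≤ p w) (hp1 : ∑ w, p w = 1) (ε : ℝ) (hε0 : 0 ≤ ε)
    (hε : ∀ y T : List α, y.length = D → D + T.length < n →
      mass p (fun w => y ++ T <:+ w) ≤ ε * mass p (fun w => T <:+ w)) :
    mass p (fun w => ¬ Determined M t w) ≤ (n - D).choose 2 * ε := by
  obtain ⟨l, hl, hlM⟩ := Nat.exists_prime_and_dvd hM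
  have : Fact l.Prime := ⟨hl⟩
  refine le_trans (mass_mono hp ?_) (main_mass (F := ZMod l) (D := D) p hp hp1 ε hε0 hε)
  intro w hw
  by_contra hc
  push Not at hc
  exact hw (determined_of_ind hlM hD w hc)

section box

variable {n : ℕ} (W : Finset (Fin n → α))

open Classical in
/-- number of words of `W` with property `E` -/
noncomputable def cE (E : List α → Prop) : ℕ := (W.filter (fun w => E (List.ofFn w))).card

/-- number of words of `W` with suffix `v` -/
noncomputable def cnt (v : List α) : ℕ := cE W (fun w => v <:+ w)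

omit [Fintype α] in
lemma cnt_append_le (x v : List α) : cnt W (x ++ v) ≤ cnt W v := by
  classical
  unfold cnt cE
  apply Finset.card_le_card
  intro w hw
  simp only [Finset.mem_filter] at hw ⊢
  exact ⟨hw.1, (List.suffix_append x v).trans hw.2⟩

omit [Fintype α] in
lemma drop_update [DecidableEq (Fin n)] (w : Fin n → α) (i : Fin n) (b : α) :
    (List.ofFn (Function.update w i b)).drop (i + 1) = (List.ofFn w).drop (i + 1) := by
  apply List.ext_getElem
  · simp
  · intro k h1 h2
    rw [List.getElem_drop, List.getElem_drop, List.getElem_ofFn, List.getElem_ofFn,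
      Function.update_of_ne]
    intro h
    have := congrArg Fin.val h
    simp only at this
    omega

lemma cnt_cons (i : Fin n) (hW : ∀ w ∈ W, ∀ b, Function.update w i b ∈ W) (a : α) (v : List α)
    (hv : i + 1 + v.length = n) : Fintype.card α * cnt W (a :: v) ≤ cnt W v := by
  classical
  have hsuf : ∀ w : Fin n → α, v <:+ List.ofFn w ↔ (List.ofFn w).drop (i + 1) = v := by
    intro w
    rw [List.suffix_iff_eq_drop, List.length_ofFn, show n - v.length = i + 1 by omega]
    exact eq_comm
  have hhead : ∀ w : Fin n → α, a :: v <:+ List.ofFn w → w i = a := by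
    intro w h
    have h1 := List.suffix_iff_eq_drop.mp h
    rw [List.length_ofFn, List.length_cons, show n - (v.length + 1) = i by omega,
      List.drop_eq_getElem_cons (by simp)] at h1
    have h2 := (List.cons.inj h1).1
    rw [h2]
    simp
  unfold cnt cE
  rw [← Finset.card_univ, ← Finset.card_product]
  apply Finset.card_le_card_of_injOn (fun q : α × (Fin n → α) => Function.update q.2 i q.1)
  · rintro ⟨b, w⟩ hq
    simp only [Finset.coe_product, Finset.coe_univ, Set.mem_prod, Set.mem_univ, true_and,
      Finset.mem_coe, Finset.mem_filter] at hq ⊢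
    refine ⟨hW w hq.1 b, ?_⟩
    rw [hsuf, drop_update, ← hsuf]
    exact (List.suffix_cons a v).trans hq.2
  · rintro ⟨b, w⟩ hq ⟨b', w'⟩ hq' heq
    simp only [Finset.coe_product, Finset.coe_univ, Set.mem_prod, Set.mem_univ, true_and,
      Finset.mem_coe, Finset.mem_filter] at hq hq'
    simp only at heq
    have hb : b = b' := by
      have := congrFun heq i
      simpa using this
    have hw : w = w' := by
      funext j
      by_cases hj : j = i
      · subst hj
        rw [hhead w hq.2, hhead w' hq'.2]
      · have := congrFun heq j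
        rw [Function.update_of_ne hj, Function.update_of_ne hj] at this
        exact this
    rw [hb, hw]

variable (r : ℕ) (hr : 1 ≤ r)
  (hW : ∀ i : Fin n, r ∣ (i : ℕ) → ∀ w ∈ W, ∀ b, Function.update w i b ∈ W)

include hr hW in
lemma cnt_block (y T : List α) (hy : y.length = r) (hT : r + T.length ≤ n) :
    Fintype.card α * cnt W (y ++ T) ≤ cnt W T := by
  obtain ⟨m, hm⟩ : ∃ m, m = n - T.length - 1 := ⟨_, rfl⟩
  have hdm := Nat.div_add_mod m r
  have hmod := Nat.mod_lt m (show 0 < r by omega)
  -- the letter at position r * (m / r)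
  have hlt : r - 1 - m % r < y.length := by omega
  have hy1 : y = y.take (r - 1 - m % r) ++ y[r - 1 - m % r] :: y.drop (r - 1 - m % r + 1) := by
    conv_lhs => rw [← List.take_append_drop (r - 1 - m % r) y, List.drop_eq_getElem_cons hlt]
  have h1 : cnt W (y ++ T) ≤ cnt W (y[r - 1 - m % r] :: (y.drop (r - 1 - m % r + 1) ++ T)) := by
    conv_lhs => rw [hy1, List.append_assoc, List.cons_append]
    exact cnt_append_le W _ _
  have hpos : r * (m / r) < n := by omega
  have h2 := cnt_cons W ⟨r * (m / r), hpos⟩ (hW _ ⟨m / r, rfl⟩) y[r - 1 - m % r]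
    (y.drop (r - 1 - m % r + 1) ++ T) (by
      simp only [List.length_append, List.length_drop]
      omega)
  exact (Nat.mul_le_mul_left _ h1).trans (h2.trans (cnt_append_le W _ _))

include hr hW in
lemma cnt_blocks (s : ℕ) : ∀ (y T : List α), y.length = r * s → r * s + T.length ≤ n →
    Fintype.card α ^ s * cnt W (y ++ T) ≤ cnt W T := by
  induction s with
  | zero =>
    intro y T _ _
    rw [pow_zero, one_mul]
    exact cnt_append_le W y T
  | succ s ih =>
    intro y T hy hT
    rw [Nat.mul_succ] at hy hT
    have h1 : y ++ T = y.take r ++ (y.drop r ++ T) := by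
      rw [← List.append_assoc, List.take_append_drop]
    rw [h1, pow_succ, mul_assoc]
    have h2 := cnt_block W r hr hW (y.take r) (y.drop r ++ T) (by rw [List.length_take]; omega)
      (by rw [List.length_append, List.length_drop]; omega)
    have h3 := ih (y.drop r) T (by rw [List.length_drop]; omega) (by omega)
    exact (Nat.mul_le_mul_left _ h2).trans h3

include hr hW in
lemma box_count {M t s : ℕ} (hM : M ≠ 1) (hD : 2 * (r * s) + 1 ≤ t) (hne : W.Nonempty)
    (hα : 0 < Fintype.card α) :
    cE W (fun w => ¬ Determined M t w) * Fintype.card α ^ s ≤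
      (n - r * s).choose 2 * W.card := by
  classical
  have hWc : (0 : ℝ) < W.card := by exact_mod_cast Finset.card_pos.mpr hne
  have hq : (0 : ℝ) < (Fintype.card α : ℝ) ^ s := by positivity
  obtain ⟨p, hp⟩ : ∃ p : (Fin n → α) → ℝ, p = fun w => if w ∈ W then (W.card : ℝ)⁻¹ else 0 :=
    ⟨_, rfl⟩
  have hmass : ∀ E : List α → Prop, mass p E = (cE W E : ℝ) * (W.card : ℝ)⁻¹ := by
    intro E
    unfold mass cE
    rw [Finset.card_filter, Nat.cast_sum, Finset.sum_mul, ← Finset.sum_subset
      (Finset.subset_univ W)]
    · refine Finset.sum_congr rfl (fun w hw => ?_)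
      by_cases h : E (List.ofFn w)
      · simp [hp, h, hw]
      · simp [h]
    · intro w _ hw
      simp [hp, hw]
  have h1 := mass_not_determined (α := α) hM hD p (fun w => by rw [hp]; positivity)
    (by
      rw [hp, ← Finset.sum_subset (Finset.subset_univ W)]
      · rw [Finset.sum_congr rfl (fun w hw => if_pos hw), Finset.sum_const, nsmul_eq_mul]
        exact mul_inv_cancel₀ hWc.ne'
      · intro w _ hw
        exact if_neg hw) ((Fintype.card α : ℝ) ^ s)⁻¹ (by positivity)
    (by
      intro y T hy hT
      rw [hmass, hmass, ← mul_assoc]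
      apply mul_le_mul_of_nonneg_right _ (by positivity)
      rw [inv_mul_eq_div, le_div_iff₀ hq, mul_comm]
      have h2 := cnt_blocks W r hr hW s y T hy (by omega)
      exact_mod_cast h2)
  rw [hmass, ← div_eq_mul_inv, ← div_eq_mul_inv, div_le_div_iff₀ hWc hq] at h1
  exact_mod_cast h1

end box

end Pool.Agent.Work.MP_02e323_helper33
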