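import Mathlib
import Pool.Agent.Work.MP_02e323_helper33.Box

/-!
# Few words are determined when `t` is smaller than a multiple of `log n`
-/

set_option autoImplicit false

open Finset

namespace Pool.Agent.Work.MP_02e323_helper33

open Pool.Agent.Work.MP_02e323_helper29 (occ words mem_words)

variable {α : Type*}

lemma occ_le (u w : List α) : occ u w ≤ w.length ^ u.length := by
  unfold occ
  calc _ ≤ (Set.univ : Set (Fin u.length → Fin w.length)).ncard :=
        Set.ncard_le_ncard (Set.subset_univ _)
    _ = _ := by rw [Set.ncard_univ, Nat.card_eq_fintype_card]; simp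

variable [Fintype α]

lemma card_words (n : ℕ) : (words (α := α) n).card = Fintype.card α ^ n := by
  induction n with
  | zero => simp [words]
  | succ n ih =>
    simp only [words, Finset.card_map, Finset.card_product, ih, Finset.card_univ]
    rw [pow_succ, mul_comm]

open Classical in
lemma card_short (hα : 2 ≤ Fintype.card α) (t : ℕ) :
    ((range (t + 1)).biUnion (fun i => words (α := α) i)).card ≤ 2 * Fintype.card α ^ t := by
  refine Finset.card_biUnion_le.trans ?_
  simp only [card_words]
  induction t with
  | zero => simp
  | succ t ih =>
    rw [Finset.sum_range_succ]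
    have : 2 * Fintype.card α ^ t ≤ Fintype.card α ^ (t + 1) := by
      rw [pow_succ, mul_comm]
      exact Nat.mul_le_mul_left _ hα
    omega

lemma few_determined (hα : 2 ≤ Fintype.card α) {t n : ℕ} (ht : 1 ≤ t) :
    {w : List α | w.length = n ∧ Determined 0 t w}.ncard ≤
      (n + 1) ^ (2 * t * Fintype.card α ^ t) := by
  classical
  rcases Nat.eq_zero_or_pos n with hn | hn
  · subst hn
    have h1 : {w : List α | w.length = 0 ∧ Determined 0 t w} ⊆ {[]} := by
      rintro w ⟨hw, _⟩
      exact List.length_eq_zero_iff.mp hw
    have h2 := Set.ncard_le_ncard h1 (Set.finite_singleton _)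
    rw [Set.ncard_singleton] at h2
    simpa using h2
  set U := (range (t + 1)).biUnion (fun i => words (α := α) i) with hU
  have hmemU : ∀ u : List α, u ∈ U ↔ u.length ≤ t := by
    intro u
    simp only [hU, Finset.mem_biUnion, Finset.mem_range, mem_words]
    constructor
    · rintro ⟨i, hi, rfl⟩; omega
    · intro h; exact ⟨u.length, by omega, rfl⟩
  have h1 : {w : List α | w.length = n ∧ Determined 0 t w} =
      ((words n).filter (fun w => Determined 0 t w) : Finset (List α)) := by
    ext w
    simp [mem_words]
  rw [h1, Set.ncard_coe_finset]
  have h2 : ((words n).filter (fun w => Determined 0 t w) : Finset (List α)).card ≤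
      (Fintype.piFinset (fun _ : U => range ((n + 1) ^ t))).card := by
    apply Finset.card_le_card_of_injOn (fun w => fun u : U => occ (u : List α) w)
    · intro w hw
      simp only [Finset.coe_filter, Set.mem_ofPred_eq, mem_words] at hw
      simp only [Finset.mem_coe, Fintype.mem_piFinset, Finset.mem_range]
      intro u
      have hu := (hmemU u).mp u.2
      refine lt_of_le_of_lt (occ_le _ _) ?_
      rw [hw.1]
      calc n ^ (u : List α).length ≤ n ^ t := Nat.pow_le_pow_right hn hu
        _ < (n + 1) ^ t := Nat.pow_lt_pow_left (by omega) (by omega)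
    · intro w hw w' hw' h
      simp only [Finset.coe_filter, Set.mem_ofPred_eq, mem_words] at hw hw'
      apply hw'.2 w (by rw [hw.1, hw'.1])
      intro u hu
      have h3 := congrFun h ⟨u, (hmemU u).mpr hu⟩
      simp only at h3
      rw [h3]
  refine h2.trans ?_
  rw [Fintype.card_piFinset]
  simp only [Finset.card_range, Finset.prod_const, Finset.card_univ, Fintype.card_coe]
  rw [← pow_mul]
  apply Nat.pow_le_pow_right (by omega)
  calc t * U.card ≤ t * (2 * Fintype.card α ^ t) := Nat.mul_le_mul_left _ (card_short hα t)
    _ = 2 * t * Fintype.card α ^ t := by ring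

end Pool.Agent.Work.MP_02e323_helper33
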